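import Pool.Agent.H710R3.RA.Main

/-!
# Reductive algebras which contain a bounded homomorphic image of a C*-algebra

A reductive algebra is a weakly closed algebra `B` of operators on a Hilbert space, containing the
identity, all of whose closed invariant subspaces are reducing. Let `u : A → B` be a bounded unital
homomorphism from any C*-algebra `A` (not assumed to respect adjoints). If the commutant of `u(A)`
is commutative, or if everything that commutes with `u(A)` commutes with `B`, then `B` is
self-adjoint.

For `u(A)` a maximal abelian self-adjoint algebra this is a classical theorem (Radjavi,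
Rosenthal, after Arveson's theorem on transitive algebras). Here `u(A)` is neither self-adjoint nor
commutative; the proof uses that every bounded homomorphism of a C*-algebra is similar to a
*-homomorphism (Kadison's similarity problem), which is proved in the starting library
(`Pool.Agent.H770R2.Kad.HAsm`).

Source: `Pool.Agent.H710R3.RA` of the starting library, never handed in.
-/

set_option autoImplicit false

open scoped InnerProductSpace

namespace Pool.Agent.Results.MP_49c4d9_an.BoundedImages

/-- The bounded operators on `H`. -/
abbrev Op (H : Type) [NormedAddCommGroup H] [InnerProductSpace ℂ H] : Type := H →L[ℂ] H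

variable {H : Type} [NormedAddCommGroup H] [InnerProductSpace ℂ H]

/-- `B` is closed in the weak operator topology. -/
def WeaklyClosed (B : Subalgebra ℂ (Op H)) : Prop := ∀ T : Op H,
  (∀ (F : Finset (H × H)) (ε : ℝ), 0 < ε → ∃ S ∈ B, ∀ p ∈ F, ‖⟪(T - S) p.1, p.2⟫_ℂ‖ < ε) → T ∈ B

/-- The subspace `M` is invariant under all operators in `B`. -/
def Invariant (B : Subalgebra ℂ (Op H)) (M : Submodule ℂ H) : Prop := ∀ T ∈ B, ∀ x ∈ M, T x ∈ M

/-- `B` is a reductive algebra: it is weakly closed (and contains the identity), and every closed
invariant subspace is reducing, that is, its orthogonal complement is invariant too. -/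
def Reductive (B : Subalgebra ℂ (Op H)) : Prop :=
  WeaklyClosed B ∧ ∀ M : Submodule ℂ H, IsClosed (M : Set H) → Invariant B M → Invariant B Mᗮ

/-- `X` commutes with all values of `u`. -/
def CommutesWith {A : Type} (u : A → Op H) (X : Op H) : Prop := ∀ a, X * u a = u a * X

/-- **Main theorem.** -/
theorem result (H : Type) [NormedAddCommGroup H] [InnerProductSpace ℂ H] [CompleteSpace H]
    (B : Subalgebra ℂ (Op H)) (hB : Reductive B) (A : Type) [CStarAlgebra A]
    (u : A →ₐ[ℂ] Op H) (hu : Continuous u) (huB : ∀ a, u a ∈ B)
    (hcomm : (∀ X Y : Op H, CommutesWith u X → CommutesWith u Y → X * Y = Y * X) ∨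
      ∀ X : Op H, CommutesWith u X → ∀ Y ∈ B, X * Y = Y * X) :
    ∀ X ∈ B, ContinuousLinearMap.adjoint X ∈ B :=
  H710R3.RA.main B hB.1 hB.2 u hu huB hcomm

end Pool.Agent.Results.MP_49c4d9_an.BoundedImages
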