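import Pool.Agent.Results.MP_f981b0_an.FiniteFactorOperator
import Pool.Agent.V1176.RD.Nor

/-!
# The reductive operator problem relative to a II₁ factor has a negative answer

Let `M` be a von Neumann algebra on a Hilbert space `H` and `A ∈ M`. The closed subspaces of `H` whose
orthogonal projection belongs to `M` are those which are invariant under the commutant of `M`. We call `A`
reductive relative to `M` if every such subspace that is invariant under `A` is reducing for `A`.

For `M = B(H)` this is the notion of the problem, and the question is whether `A` is then normal. Here: there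
are a II₁ factor `M`, in standard form on a separable Hilbert space, and an operator `A ∈ M` which is reductive
relative to `M` and not normal.

The operator is the one of the file `FiniteFactorOperator` of the problem `MP_f981b0_an` (invariant
subspaces): it has no invariant subspace at all with a projection in `M` other than `0` and `H`. A normal
operator of `M` which is not scalar has one (a kernel of a continuous function of the operator).
-/

set_option autoImplicit false

open scoped InnerProductSpace

namespace Pool.Agent.Results.MP_49c4d9_an.FiniteFactorReductive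

section

variable {H : Type} [NormedAddCommGroup H] [InnerProductSpace ℂ H] [CompleteSpace H]

/-- `ξ` is a unit trace vector of `M`, cyclic and separating for `M`. -/
def TraceVector (M : VonNeumannAlgebra H) (ξ : H) : Prop :=
  ‖ξ‖ = 1 ∧ (∀ x ∈ M, ∀ y ∈ M, ⟪ξ, x (y ξ)⟫_ℂ = ⟪ξ, y (x ξ)⟫_ℂ) ∧
    (∀ x ∈ M, x ξ = 0 → x = 0) ∧ Dense {v : H | ∃ x ∈ M, v = x ξ}

/-- The centre of `M` consists of scalars. -/
def IsFactor (M : VonNeumannAlgebra H) : Prop :=
  ∀ z ∈ M, (∀ x ∈ M, z * x = x * z) → ∃ c : ℂ, z = c • (1 : H →L[ℂ] H)

/-- `A` is reductive relative to `M`: every closed subspace that is invariant under `A` and under the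
commutant of `M` (so that its orthogonal projection is in `M`) is reducing for `A`. -/
def RelativelyReductive (M : VonNeumannAlgebra H) (A : H →L[ℂ] H) : Prop :=
  ∀ V : Submodule ℂ H, IsClosed (V : Set H) → (∀ v ∈ V, A v ∈ V) →
    (∀ S ∈ M.commutant, ∀ v ∈ V, S v ∈ V) → ∀ v ∈ Vᗮ, A v ∈ Vᗮ

/-- `A` is normal: it commutes with its adjoint. -/
def Normal (A : H →L[ℂ] H) : Prop :=
  ContinuousLinearMap.adjoint A ∘L A = A ∘L ContinuousLinearMap.adjoint A

/-- `M` is a factor on an infinite-dimensional space with the trace vector `ξ`, and `A` is an operator in `M`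
which is reductive relative to `M` and not normal. -/
def Example (M : VonNeumannAlgebra H) (ξ : H) (A : H →L[ℂ] H) : Prop :=
  ¬ FiniteDimensional ℂ H ∧ IsFactor M ∧ TraceVector M ξ ∧ A ∈ M ∧ RelativelyReductive M A ∧ ¬ Normal A

end

/-- **There are a II₁ factor and an operator in it which is reductive relative to the factor and not
normal.** -/
theorem result :
    ∃ (H : Type) (_ : NormedAddCommGroup H) (_ : InnerProductSpace ℂ H) (_ : CompleteSpace H)
      (_ : TopologicalSpace.SeparableSpace H) (M : VonNeumannAlgebra H) (ξ : H)
      (A : H →L[ℂ] H), Example M ξ A := by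
  obtain ⟨H, i1, i2, i3, i4, M, ξ, A, h1, h2, h3, h4, h5, h6⟩ :=
    Pool.Agent.Results.MP_f981b0_an.FiniteFactorOperator.result
  refine ⟨H, i1, i2, i3, i4, M, ξ, A, h1, h2, h3, h4, ?_, ?_⟩
  · intro V hV hA hS v hv
    rcases h6 V hV hA hS with rfl | rfl
    · rw [Submodule.bot_orthogonal_eq_top]
      trivial
    · rw [Submodule.top_orthogonal_eq_bot, Submodule.mem_bot] at hv
      rw [hv, map_zero]
      exact Submodule.zero_mem _
  · intro hnorm
    have hA : IsStarNormal A := ⟨hnorm⟩
    obtain ⟨V, hV, hbot, htop, hinv⟩ := Pool.Agent.V1176.RD.normal_inv A hA h5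
    have hcom : ∀ S ∈ M.commutant, ∀ v ∈ V, S v ∈ V := by
      intro S hS
      have hS' := VonNeumannAlgebra.mem_commutant_iff.1 hS
      exact hinv S (hS' A h4) (hS' (star A) (star_mem h4))
    rcases h6 V hV (hinv A (Commute.refl A) hnorm) hcom with h | h
    · exact hbot h
    · exact htop h

end Pool.Agent.Results.MP_49c4d9_an.FiniteFactorReductive
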